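import Mathlib
import Pool.Agent.H817R5.EP.Stubs

/-! Erdos problem 676 (MP_1626ca_nt): the common part, small moduli. -/

set_option autoImplicit false

open Finset

namespace Pool.Agent.H318R5.EP

open Pool.Agent.H817R5.EP

theorem tgs_ind (a : ℕ → ℕ) (T : Finset ℕ) (n : ℕ) :
    ind a T n = ∏ q ∈ T, (if n % q ^ 2 < a q then (1 : ℝ) else 0) := by
  unfold ind
  split_ifs with h
  · refine (prod_eq_one fun q hq => ?_).symm
    rw [if_pos (h q hq)]
  · push Not at h
    obtain ⟨q, hq, hlt⟩ := h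
    refine (prod_eq_zero hq ?_).symm
    rw [if_neg (not_lt.2 hlt)]

theorem tgs_ind_nonneg (a : ℕ → ℕ) (T : Finset ℕ) (n : ℕ) : 0 ≤ ind a T n := by
  unfold ind
  split_ifs
  · exact zero_le_one
  · exact le_rfl

theorem tgs_ind_per (a : ℕ → ℕ) (T : Finset ℕ) (n s : ℕ) :
    ind a T (n % (∏ q ∈ T, q ^ 2) + s) = ind a T (n + s) := by
  rw [tgs_ind, tgs_ind]
  refine prod_congr rfl fun q hq => ?_
  have h1 : (n % (∏ q ∈ T, q ^ 2) + s) % q ^ 2 = (n + s) % q ^ 2 := by
    rw [Nat.add_mod, Nat.mod_mod_of_dvd _ (dvd_prod_of_mem (fun q => q ^ 2) hq), ← Nat.add_mod]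
  rw [h1]

theorem tgs (hcrt : St_CRT) (hper : St_PER) : St_TGS := by
  intro a P g z H hadm hg
  set Q : ℕ := ∏ q ∈ g, q ^ 2 with hQ
  have hpr : ∀ q ∈ g, q.Prime := fun q hq => (hadm q (hg hq)).1
  have hQ0 : 0 < Q := prod_pos fun q hq => pow_pos (hpr q hq).pos 2
  have hQR : ((Q : ℕ) : ℝ) = ∏ q ∈ g, (q : ℝ) ^ 2 := by
    rw [hQ]
    push_cast
    rfl
  have hQR0 : (0 : ℝ) < Q := by exact_mod_cast hQ0
  have hind0 := tgs_ind_nonneg a g
  -- the sum over a period
  have hS : ∑ y ∈ range Q, ind a g y = ∏ q ∈ g, (a q : ℝ) := by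
    have h1 := hcrt g (fun q n => if n % q ^ 2 < a q then (1 : ℝ) else 0) hpr
      (fun q _ n => by simp only [Nat.mod_mod])
    rw [sum_congr rfl fun y _ => tgs_ind a g y, h1]
    refine prod_congr rfl fun q hq => ?_
    have hq2 : a q ≤ q ^ 2 := by
      have h3 := (hadm q (hg hq)).2.2.2
      have h4 := (hpr q hq).two_le
      nlinarith
    have h2 : ∀ y ∈ range (q ^ 2), (if y % q ^ 2 < a q then (1 : ℝ) else 0) =
        if y < a q then (1 : ℝ) else 0 := by
      intro y hy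
      rw [Nat.mod_eq_of_lt (mem_range.1 hy)]
    rw [sum_congr rfl h2, sum_boole]
    have h3 : (range (q ^ 2)).filter (fun y => y < a q) = range (a q) := by
      ext y
      simp only [mem_filter, mem_range]
      omega
    rw [h3, card_range]
  have hden : (Q : ℝ) * den a g = ∏ q ∈ g, (a q : ℝ) := by
    unfold den
    rw [hQR, ← prod_mul_distrib]
    refine prod_congr rfl fun q hq => ?_
    have : (q : ℝ) ≠ 0 := by exact_mod_cast (hpr q hq).ne_zero
    field_simp
  have hper1 : ∀ n, ind a g (n % Q) = ind a g n := by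
    intro n
    have := tgs_ind_per a g n 0
    simpa using this
  have hshift : ∀ r, ∑ y ∈ range Q, ind a g (y + r) = (Q : ℝ) * den a g := by
    intro r
    rw [(hper Q 0 0 (ind a g) hQ0 hper1).2.2 r, hS, hden]
  -- the function for fixed `s`
  have hkap0 : ∀ r s, 0 ≤ kap a g r s := by
    intro r s
    unfold kap
    rw [← hQR]
    exact div_nonneg (sum_nonneg fun y _ => mul_nonneg (hind0 _) (hind0 _)) hQR0.le
  have hkapper : ∀ s n, kap a g (n % Q) s = kap a g n s := by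
    intro s n
    unfold kap
    congr 1
    refine sum_congr rfl fun y _ => ?_
    rw [add_comm y (n % Q), tgs_ind_per, add_comm n y]
  have hkapsum : ∀ s, ∑ r ∈ range Q, kap a g r s = (Q : ℝ) * den a g ^ 2 := by
    intro s
    unfold kap
    rw [← sum_div, ← hQR, ← hQ, sum_comm]
    have h1 : ∀ y ∈ range Q, ∑ r ∈ range Q, ind a g (y + r) * ind a g (y + s) =
        ((Q : ℝ) * den a g) * ind a g (y + s) := by
      intro y _
      rw [← sum_mul, ← hshift y]
      congr 1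
      refine sum_congr rfl fun r _ => ?_
      rw [add_comm]
    rw [sum_congr rfl h1, ← mul_sum, hshift s]
    field_simp
  have hbound : (Q : ℝ) * den a g ^ 2 ≤ (∏ q ∈ g, (q : ℝ)) ^ 2 := by
    have h1 : (Q : ℝ) * den a g ^ 2 = ∏ q ∈ g, ((a q : ℝ) ^ 2 / (q : ℝ) ^ 2) := by
      unfold den
      rw [hQR, ← prod_pow, ← prod_mul_distrib]
      refine prod_congr rfl fun q hq => ?_
      have : (q : ℝ) ≠ 0 := by exact_mod_cast (hpr q hq).ne_zero
      field_simp
    rw [h1, ← prod_pow]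
    refine prod_le_prod (fun q _ => by positivity) fun q hq => ?_
    have h2 : (2 : ℝ) ≤ q := by exact_mod_cast (hpr q hq).two_le
    have h3 : (a q : ℝ) ≤ 2 * q := by exact_mod_cast (hadm q (hg hq)).2.2.2
    have h4 : (0 : ℝ) ≤ a q := Nat.cast_nonneg _
    rw [div_le_iff₀ (by positivity)]
    have h5 : (a q : ℝ) ^ 2 ≤ (2 * q) ^ 2 := pow_le_pow_left₀ h4 h3 2
    have h6 : (4 : ℝ) ≤ (q : ℝ) ^ 2 := by nlinarith
    have h7 : (0 : ℝ) ≤ (q : ℝ) ^ 2 := by positivity
    nlinarith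
  rw [sum_comm]
  have hrow : ∀ s ∈ range H, |∑ r ∈ range H, (kap a g r s - den a g ^ 2)| ≤
      (∏ q ∈ g, (q : ℝ)) ^ 2 := by
    intro s _
    have h1 := (hper Q 0 H (fun r => kap a g r s) hQ0 (hkapper s)).2.1 (fun r => hkap0 r s)
    rw [hkapsum s, zero_add, ← range_eq_Ico] at h1
    have h2 : ∑ r ∈ range H, (kap a g r s - den a g ^ 2) =
        ∑ r ∈ range H, kap a g r s - (H : ℝ) / Q * (Q * den a g ^ 2) := by
      rw [sum_sub_distrib, sum_const, card_range, nsmul_eq_mul]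
      field_simp
    rw [h2]
    exact h1.trans hbound
  calc |∑ s ∈ range H, ∑ r ∈ range H, (kap a g r s - den a g ^ 2)|
      ≤ ∑ s ∈ range H, |∑ r ∈ range H, (kap a g r s - den a g ^ 2)| := abs_sum_le_sum_abs _ _
    _ ≤ ∑ _s ∈ range H, (∏ q ∈ g, (q : ℝ)) ^ 2 := sum_le_sum hrow
    _ = H * (∏ q ∈ g, (q : ℝ)) ^ 2 := by rw [sum_const, card_range, nsmul_eq_mul]

end Pool.Agent.H318R5.EP
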